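import Pool.Agent.C4U.Stmts

set_option autoImplicit false

namespace Pool.Agent.C4U.H60

open Pool.Agent.C4F
open Pool.Agent.Helper53_CookLevin (PGen)
open Pool.Agent.Helper53_Chan (Test Test.congr)

theorem od_test (K : Kit) (r : ℕ) (x y : (Fin r → List Lt) → ℕ) (hx : NumF r x) (hy : NumF r y) :
    Test r (fun ρ => Od (x ρ) (y ρ)) := by
  have hx1 : NumF (r + 1) (fun ρ => x (fun i => ρ i.succ)) := K.rename r (r + 1) Fin.succ x hx
  have hy1 : NumF (r + 1) (fun ρ => y (fun i => ρ i.succ)) := K.rename r (r + 1) Fin.succ y hy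
  have h1 := K.eq (r + 1) _ _ hy1 (K.mul _ _ _ hx1
    (K.add _ _ _ (K.mul _ _ _ (K.cst (r + 1) 2) (K.var (r + 1) 0)) (K.cst (r + 1) 1)))
  exact K.ex r (fun ρ => y ρ + 1) (fun e ρ => y ρ = x ρ * (2 * e + 1))
    (K.add _ _ _ hy (K.cst r 1)) h1

theorem o_num (K : Kit) (r : ℕ) (x : (Fin r → List Lt) → ℕ) (hx : NumF r x) :
    NumF r (fun ρ => o (x ρ)) := by
  have hx2 : NumF (r + 1 + 1) (fun ρ => x (fun i => ρ i.succ.succ)) :=
    K.rename r (r + 1 + 1) (fun i => i.succ.succ) x hx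
  have h1 := K.not _ _ (od_test K (r + 1 + 1) (fun ρ => (ρ 0).length) _ (K.var _ 0) hx2)
  have h2 := K.all (r + 1) (fun ρ => (ρ 0).length + 1)
    (fun d ρ => ¬ Od d (x (fun i => ρ i.succ))) (K.add _ _ _ (K.var _ 0) (K.cst _ 1)) h1
  exact K.cnt r x (fun v ρ => ∀ d < v + 1, ¬ Od d (x ρ)) hx h2

theorem prd : PrdStmt := by
  intro K r x y hx hy
  refine ⟨od_test K r x y hx hy, o_num K r x hx, ?_, ?_⟩
  · exact K.and _ _ _ (K.lt _ _ _ hy hx) (K.le _ _ _ hx (K.add _ _ _ hy (o_num K r x hx)))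
  · exact K.and _ _ _ (K.le _ _ _ hx hy) (K.lt _ _ _ hy (K.add _ _ _ hx (o_num K r x hx)))

end Pool.Agent.C4U.H60
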